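import Pool.Agent.W205.K5.Stm0

set_option autoImplicit false

namespace Pool.Agent.W944.K5

open Pool.Agent.W205.K5

theorem piece21 (_hL : S_LINE) (hC : S_CHORD) : PIECE 2 1 := by
  intro w g hs h1 h2 ρ hρ0 hρ1 hρ
  have hρe : ρ = 4 / 5 := by
    have h3 : ρ * (5 / 4 * ρ - 1) = 0 := by
      push_cast at hρ
      linear_combination hρ
    rcases mul_eq_zero.mp h3 with h4 | h4
    · exact absurd h4 hρ0.ne'
    · linarith
  have hch := hC 2 w g (by norm_num) hs 1 le_rfl (by norm_num) h1 h2
  have hadd := hs.add 0 (by norm_num)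
  have hjen := hs.jen 1 (by norm_num)
  have hwk := hs.wk
  norm_num [KK] at hch hadd hjen h1 h2
  simp only [Th, Finset.sum_range_succ, Finset.sum_range_zero]
  norm_num
  rw [hwk, hρe]
  norm_num
  nlinarith

end Pool.Agent.W944.K5
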